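import Pool.Agent.H676Z.CR.Graph

/-! Small facts on the graph and on paths. -/

set_option autoImplicit false

namespace Pool.Agent.H848Z.CR

open Pool.Agent.H676Z.CR

theorem emb_inj {c : Bool} {u v : V1} (h : emb c u = emb c v) : u = v := by
  unfold emb at h
  split_ifs at h with h1 h2 h2
  · rw [h1, h2]
  · exact absurd (congrArg Prod.snd h).symm h2
  · exact absurd (congrArg Prod.snd h) h1
  · exact congrArg Prod.snd h

theorem emb_snd (c : Bool) (v : V1) : (emb c v).2 = v := by
  unfold emb
  split_ifs with h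
  · exact h.symm
  · rfl

theorem emb_eq_iff {c c' : Bool} {u v : V1} :
    emb c u = emb c' v ↔ u = v ∧ (c = c' ∨ u = V1.z) := by
  constructor
  · intro h
    have h1 : u = v := by rw [← emb_snd c u, h, emb_snd]
    subst h1
    refine ⟨rfl, ?_⟩
    by_cases hz : u = V1.z
    · exact Or.inr hz
    · left
      unfold emb at h
      rw [if_neg hz, if_neg hz] at h
      exact congrArg Prod.fst h
  · rintro ⟨rfl, rfl | rfl⟩
    · rfl
    · simp [emb]

variable {P : Par}

theorem R_pos (P : Par) : 0 < P.R := by unfold Par.R; omega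

theorem vok_lsrc {e : Lt} (h : P.lok e) : P.vok (P.lsrc e) := by
  cases e <;> simp only [Par.lok, Par.lsrc, Par.vok, Par.R, Par.qL] at * <;>
    first | trivial | omega | (split_ifs <;> omega)

theorem vok_ltgt {e : Lt} (h : P.lok e) : P.vok (P.ltgt e) := by
  cases e <;> simp only [Par.lok, Par.ltgt, Par.vok, Par.R, Par.qR] at * <;>
    first | trivial | omega | (split_ifs <;> omega)

theorem vok_src1 {e : E1} (h : P.eok e) : P.vok (P.src1 e) := by
  rcases e with e | ⟨hh, s, u, side⟩
  · exact vok_lsrc h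
  · cases hh <;> cases side <;> simp only [Par.eok, Par.src1, Par.vok] at * <;> tauto

theorem vok_tgt1 {e : E1} (h : P.eok e) : P.vok (P.tgt1 e) := by
  rcases e with e | ⟨hh, s, u, side⟩
  · exact vok_ltgt h
  · cases hh <;> cases side <;> simp only [Par.eok, Par.tgt1, Par.vok] at * <;>
      first | tauto | exact Nat.mod_lt _ (R_pos P)

theorem lsrc_ne_ltgt (P : Par) (e : Lt) : P.lsrc e ≠ P.ltgt e := by
  cases e <;> simp only [Par.lsrc, Par.ltgt, ne_eq, V1.r.injEq, reduceCtorEq,
    not_false_eq_true] <;> omega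

theorem src1_ne_tgt1 (P : Par) (e : E1) : P.src1 e ≠ P.tgt1 e := by
  rcases e with e | ⟨hh, s, u, side⟩
  · exact lsrc_ne_ltgt P e
  · cases hh <;> cases side <;> simp [Par.src1, Par.tgt1]

theorem emb_mem {c : Bool} {v : V1} (h : P.vok v) : emb c v ∈ P.VS := ⟨c, v, h, rfl⟩

theorem src_mem {a : Bool × E1} (h : a ∈ P.ES) : P.src a ∈ P.VS := emb_mem (vok_src1 h)

theorem tgt_mem {a : Bool × E1} (h : a ∈ P.ES) : P.tgt a ∈ P.VS := emb_mem (vok_tgt1 h)

theorem src_ne_tgt (P : Par) (a : Bool × E1) : P.src a ≠ P.tgt a :=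
  fun h => src1_ne_tgt1 P a.2 (emb_inj h)

theorem gok_grp {e : Lt} (h : P.lok e) : P.gok e.grp := by
  cases e <;> simp only [Par.lok, Par.gok, Lt.grp] at * <;> exact h

theorem fd_irrefl (A : Grp) : ¬ Fd A A := by
  cases A <;> simp [Fd]

theorem not_forced_self (A : Grp) : ¬ Forced A A := fun h => h.elim (fd_irrefl A) (fd_irrefl A)

theorem fd_asymm {A B : Grp} (h : Fd A B) : ¬ Fd B A := by
  cases A <;> cases B <;> simp only [Fd, not_false_eq_true, not_lt, not_and] at * <;> omega

theorem Forced.symm' {A B : Grp} (h : Forced A B) : Forced B A := Or.symm h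

/-! ### Paths -/

theorem left_mem_arc (a w b : Pt) : a ∈ arc a w b := Or.inl (left_mem_segment _ _ _)

theorem mid_mem_arc (a w b : Pt) : w ∈ arc a w b := Or.inl (right_mem_segment _ _ _)

theorem right_mem_arc (a w b : Pt) : b ∈ arc a w b := Or.inr (right_mem_segment _ _ _)

theorem segment_compact (a b : Pt) : IsCompact (segment ℝ a b) := by
  rw [segment_eq_image']
  exact isCompact_Icc.image (by fun_prop)

theorem arc_compact (a w b : Pt) : IsCompact (arc a w b) :=
  (segment_compact a w).union (segment_compact w b)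

theorem segment_pc (a b : Pt) : IsPathConnected (segment ℝ a b) :=
  (convex_segment a b).isPathConnected ⟨a, left_mem_segment _ _ _⟩

theorem arc_pc (a w b : Pt) : IsPathConnected (arc a w b) :=
  (segment_pc a w).union (segment_pc w b) ⟨w, right_mem_segment _ _ _, left_mem_segment _ _ _⟩

theorem meet_symm {V E : Type} {s t : E → V} {p : V → Pt} {w : E → Pt} {e f : E} {x : Pt}
    (h : Meet s t p w e f x) : Meet s t p w f e x :=
  ⟨h.2.1, h.1, fun ⟨v, h1, h2, h3⟩ => h.2.2 ⟨v, h2, h1, h3⟩⟩

/-- A crossing point is not the point of a vertex. -/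
theorem meet_ne_vertex {V E : Type} {VS : Set V} {ES : Set E} {s t : E → V} {p : V → Pt}
    {w : E → Pt} (hD : IsDrawing VS ES s t p w) {e f : E} (he : e ∈ ES) (hf : f ∈ ES) {x : Pt}
    (h : Meet s t p w e f x) {v : V} (hv : v ∈ VS) : x ≠ p v := by
  rintro rfl
  apply h.2.2
  refine ⟨v, ?_, ?_, rfl⟩
  · by_contra hc
    push Not at hc
    exact hD.avoid e he v hv hc.1 hc.2 h.1
  · by_contra hc
    push Not at hc
    exact hD.avoid f hf v hv hc.1 hc.2 h.2.1

end Pool.Agent.H848Z.CR
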