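import Pool.Agent.H676Z.CR.Spec
import Pool.Agent.H848Z.CR.Small

/-! The wheel of a family of paths which do not cross, and the count of the crossings. -/

set_option autoImplicit false

namespace Pool.Agent.H848Z.CR

open Pool.Agent.H676Z.CR

theorem count : S_count := by
  intro P k hk p w hD hT
  have hex : ∀ y : Sym2 (Bool × E1) × Pt, ∃ (c : Bool) (a b : Lt),
      y ∈ crossings P.ES P.src P.tgt p w → P.lok a ∧ P.lok b ∧ Fd a.grp b.grp ∧
        y.1 = s((c, E1.l a), (c, E1.l b)) ∧
        Meet P.src P.tgt p w (c, E1.l a) (c, E1.l b) y.2 := by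
    intro y
    by_cases hy : y ∈ crossings P.ES P.src P.tgt p w
    · obtain ⟨e, he, f, hf, hef, h1, h2⟩ := hy
      obtain ⟨c, a, b, rfl, rfl, h3⟩ := hT.only e he f hf hef _ h2
      rcases h3 with h3 | h3
      · exact ⟨c, a, b, fun _ => ⟨he, hf, h3, h1, h2⟩⟩
      · exact ⟨c, b, a, fun _ => ⟨hf, he, h3, by rw [h1, Sym2.eq_swap], meet_symm h2⟩⟩
    · exact ⟨true, Lt.f, Lt.f, fun h => absurd h hy⟩
  choose c a b h using hex
  have key : ∀ (c : Bool) (a a' b b' : Lt) (x : Pt), P.lok a → P.lok a' → P.lok b →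
      a.grp = a'.grp → Meet P.src P.tgt p w (c, E1.l a) (c, E1.l b) x →
      Meet P.src P.tgt p w (c, E1.l a') (c, E1.l b') x → a = a' := by
    intro c a a' b b' x ha ha' hb hg h1 h2
    by_contra hne
    have hm : Meet P.src P.tgt p w (c, E1.l a) (c, E1.l a') x := by
      refine ⟨h1.1, h2.1, ?_⟩
      rintro ⟨v, hv, -, hx⟩
      have hea : ((c, E1.l a) : Bool × E1) ∈ P.ES := ha
      have heb : ((c, E1.l b) : Bool × E1) ∈ P.ES := hb
      refine meet_ne_vertex hD hea heb h1 ?_ hx
      rcases hv with rfl | rfl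
      · exact src_mem hea
      · exact tgt_mem hea
    obtain ⟨c', a1, b1, e1, e2, h3⟩ := hT.only (c, E1.l a) ha (c, E1.l a') ha'
      (by simpa using hne) x hm
    simp only [Prod.mk.injEq, E1.l.injEq] at e1 e2
    rw [← e1.2, ← e2.2, hg] at h3
    exact not_forced_self _ h3
  have hle : (crossings P.ES P.src P.tgt p w).encard ≤
      ((Set.univ : Set Bool) ×ˢ P.FS).encard := by
    refine Set.encard_le_encard_of_injOn (f := fun y => (c y, ((a y).grp, (b y).grp))) ?_ ?_
    · intro y hy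
      obtain ⟨h1, h2, h3, -, -⟩ := h y hy
      exact ⟨trivial, gok_grp h1, gok_grp h2, h3⟩
    · intro y hy y' hy' he
      obtain ⟨h1, h2, h3, h4, h5⟩ := h y hy
      obtain ⟨h1', h2', h3', h4', h5'⟩ := h y' hy'
      simp only [Prod.mk.injEq] at he
      obtain ⟨e1, e2, e3⟩ := he
      rw [← e1] at h4' h5'
      have hx : y.2 = y'.2 := hT.uniq (c y) _ _ _ _ h1 h2 h1' h2' e2 e3 (Or.inl h3) _ _ h5 h5'
      rw [← hx] at h5'
      have k1 : a y = a y' := key _ _ _ _ _ _ h1 h1' h2 e2 h5 h5'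
      have k2 : b y = b y' := key _ _ _ _ _ _ h2 h2' h1 e3 (meet_symm h5) (meet_symm h5')
      refine Prod.ext ?_ hx
      rw [h4, h4', k1, k2]
  have h2 : (Set.univ : Set Bool).encard = 2 := by
    rw [Set.encard_univ, ENat.card_eq_coe_fintype_card, Fintype.card_bool]; rfl
  rw [Set.encard_prod, hk, h2] at hle
  simpa using hle

theorem succ_mod_inj {R s t : ℕ} (hs : s < R) (ht : t < R) (h : (s + 1) % R = (t + 1) % R) :
    s = t := by
  rcases (Nat.succ_le_of_lt hs).lt_or_eq with h1 | h1 <;>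
    rcases (Nat.succ_le_of_lt ht).lt_or_eq with h2 | h2
  · rw [Nat.mod_eq_of_lt h1, Nat.mod_eq_of_lt h2] at h; omega
  · rw [Nat.mod_eq_of_lt h1, show t + 1 = R from h2, Nat.mod_self] at h; omega
  · rw [Nat.mod_eq_of_lt h2, show s + 1 = R from h1, Nat.mod_self] at h; omega
  · omega

theorem wheel : S_wheel := by
  intro P p w hD c u hu hN
  have hE : ∀ hh side, ∀ s < P.R, ((c, E1.h hh s (u hh s) side) : Bool × E1) ∈ P.ES :=
    fun hh side s hs => ⟨hs, hu hh s hs⟩
  have K : ∀ hh hh' side side', ∀ s < P.R, ∀ s' < P.R, (hh ≠ hh' ∨ s ≠ s') → ∀ x,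
      x ∈ path P.src P.tgt p w (c, E1.h hh s (u hh s) side) →
      x ∈ path P.src P.tgt p w (c, E1.h hh' s' (u hh' s') side') →
      ∃ v : V1, (v = P.src1 (E1.h hh s (u hh s) side) ∨ v = P.tgt1 (E1.h hh s (u hh s) side)) ∧
        (v = P.src1 (E1.h hh' s' (u hh' s') side') ∨ v = P.tgt1 (E1.h hh' s' (u hh' s') side')) ∧
        x = p (emb c v) := by
    intro hh hh' side side' s hs s' hs' hne x h1 h2
    have hne' : E1.h hh s (u hh s) side ≠ E1.h hh' s' (u hh' s') side' := by
      intro h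
      simp only [E1.h.injEq] at h
      tauto
    have h3 := hN hh hh' side side' s hs s' hs' hne' x
    unfold Meet at h3
    have h4 : ∃ v, (v = P.src (c, E1.h hh s (u hh s) side) ∨
        v = P.tgt (c, E1.h hh s (u hh s) side)) ∧
        (v = P.src (c, E1.h hh' s' (u hh' s') side') ∨
        v = P.tgt (c, E1.h hh' s' (u hh' s') side')) ∧ x = p v := by
      by_contra hc
      exact h3 ⟨h1, h2, hc⟩
    obtain ⟨v, k1, k2, k3⟩ := h4
    simp only [Par.src, Par.tgt] at k1 k2
    rcases k1 with rfl | rfl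
    · exact ⟨_, Or.inl rfl, k2.imp emb_inj emb_inj, k3⟩
    · exact ⟨_, Or.inr rfl, k2.imp emb_inj emb_inj, k3⟩
  have hpc : ∀ hh s, IsPathConnected (bund P p w c hh s (u hh s)) := by
    intro hh s
    refine (arc_pc _ _ _).union (arc_pc _ _ _) ⟨p (emb c (V1.m hh s (u hh s))), ?_, ?_⟩
    · cases hh <;> exact right_mem_arc _ _ _
    · cases hh <;> exact left_mem_arc _ _ _
  have r0 : ∀ s, p (emb c (V1.r s)) ∈ bund P p w c false s (u false s) :=
    fun s => Or.inl (left_mem_arc _ _ _)
  have r1 : ∀ s, p (emb c (V1.r ((s + 1) % P.R))) ∈ bund P p w c false s (u false s) :=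
    fun s => Or.inr (right_mem_arc _ _ _)
  have q0 : ∀ s, p (emb c V1.o) ∈ bund P p w c true s (u true s) :=
    fun s => Or.inl (left_mem_arc _ _ _)
  have q1 : ∀ s, p (emb c (V1.r s)) ∈ bund P p w c true s (u true s) :=
    fun s => Or.inr (right_mem_arc _ _ _)
  refine ⟨by unfold Par.R; omega, ?_, ?_, fun s _ => r0 s, fun s _ => r1 s, ?_, ?_, ?_, ?_, ?_,
    fun s _ => (arc_compact _ _ _).union (arc_compact _ _ _),
    fun s _ => (arc_compact _ _ _).union (arc_compact _ _ _)⟩
  · intro s hs t ht h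
    have := emb_inj (hD.inj _ (emb_mem (v := V1.r s) hs) _ (emb_mem (v := V1.r t) ht) h)
    simpa using this
  · intro s _ x hx
    exact (hpc false s).joinedIn _ (r0 s) _ hx
  · intro s _
    exact (hpc true s).joinedIn _ (q0 s) _ (q1 s)
  · intro s hs x hx hxr
    set O := p (emb c V1.o) with hO
    set r := p (emb c (V1.r s)) with hr
    set m := p (emb c (V1.m true s (u true s))) with hm
    set w0 := w (c, E1.h true s (u true s) false) with hw0
    set w1 := w (c, E1.h true s (u true s) true) with hw1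
    have hb : bund P p w c true s (u true s) = arc O w0 m ∪ arc m w1 r := rfl
    have a0 : r ∉ arc O w0 m := by
      refine hD.avoid _ (hE true false s hs) _ (emb_mem (v := V1.r s) hs) ?_ ?_
      · intro h; simpa [Par.src1] using emb_inj h
      · intro h; simpa [Par.tgt1] using emb_inj h
    have a1 : r ∉ segment ℝ m w1 := (hD.simple _ (hE true true s hs)).2
    have pc1 : IsPathConnected (arc O w0 m ∪ segment ℝ m w1) :=
      (arc_pc _ _ _).union (segment_pc _ _) ⟨m, right_mem_arc _ _ _, left_mem_segment _ _ _⟩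
    have sub1 : arc O w0 m ∪ segment ℝ m w1 ⊆ (arc O w0 m ∪ arc m w1 r) \ {r} := by
      rintro y (hy | hy)
      · exact ⟨Or.inl hy, fun h => a0 (by rwa [Set.mem_singleton_iff.1 h] at hy)⟩
      · exact ⟨Or.inr (Or.inl hy), fun h => a1 (by rwa [Set.mem_singleton_iff.1 h] at hy)⟩
    have hO1 : O ∈ arc O w0 m ∪ segment ℝ m w1 := Or.inl (left_mem_arc _ _ _)
    simp only [hb] at hx ⊢
    rcases hx with hx | hx | hx
    · exact (pc1.joinedIn _ hO1 _ (Or.inl hx)).mono sub1
    · exact (pc1.joinedIn _ hO1 _ (Or.inr hx)).mono sub1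
    · have j1 : JoinedIn ((arc O w0 m ∪ arc m w1 r) \ {r}) O w1 :=
        (pc1.joinedIn _ hO1 _ (Or.inr (right_mem_segment _ _ _))).mono sub1
      refine j1.trans (((segment_pc w1 x).joinedIn _ (left_mem_segment _ _ _) _
        (right_mem_segment _ _ _)).mono ?_)
      intro y hy
      refine ⟨Or.inr (Or.inr ((convex_segment w1 r).segment_subset (left_mem_segment _ _ _) hx hy)),
        fun h => hxr ?_⟩
      rw [Set.mem_singleton_iff.1 h] at hy
      exact (wbtw_swap_right_iff ℝ w1).1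
        ⟨mem_segment_iff_wbtw.1 hx, mem_segment_iff_wbtw.1 hy⟩
  · intro s hs t ht hst x hx hx'
    rcases hx with hx | hx <;> rcases hx' with hx' | hx' <;>
      obtain ⟨v, k1, k2, k3⟩ := K _ _ _ _ s hs t ht (Or.inr hst) x hx hx' <;>
      simp only [Par.src1, Par.tgt1] at k1 k2 <;>
      rcases k1 with rfl | rfl <;>
      simp only [V1.r.injEq, V1.m.injEq, reduceCtorEq, or_false, false_or, true_and, or_self,
        hst, false_and] at k2
    · exact Or.inl ⟨k3, k2⟩
    · exact Or.inr ⟨by rw [k3, k2], k2.symm⟩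
    · exact absurd (succ_mod_inj hs ht k2) hst
  · intro s hs t ht hst x hx hx'
    rcases hx with hx | hx <;> rcases hx' with hx' | hx' <;>
      obtain ⟨v, k1, k2, k3⟩ := K _ _ _ _ s hs t ht (Or.inr hst) x hx hx' <;>
      simp only [Par.src1, Par.tgt1] at k1 k2 <;>
      rcases k1 with rfl | rfl <;>
      simp only [V1.r.injEq, V1.m.injEq, reduceCtorEq, or_false, false_or, true_and, or_self,
        hst, false_and] at k2
    exact k3
  · intro s hs t ht x hx hx'
    rcases hx with hx | hx <;> rcases hx' with hx' | hx' <;>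
      obtain ⟨v, k1, k2, k3⟩ := K _ _ _ _ s hs t ht (Or.inl (by simp)) x hx hx' <;>
      simp only [Par.src1, Par.tgt1] at k1 k2 <;>
      rcases k1 with rfl | rfl <;>
      simp only [V1.r.injEq, V1.m.injEq, reduceCtorEq, or_false, false_or, or_self,
        false_and] at k2
    · exact ⟨k3, Or.inl k2⟩
    · exact ⟨k3, Or.inr k2⟩

end Pool.Agent.H848Z.CR
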